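import Pool.Agent.Q127.SM.Final

/-!
# MP_bde085_nt: Q1 is a question on one coordinate

`Question 𝓕 P` is Q1 for the forms of the family `𝓕` and with the bound `P`: `CoordBound` bounds both
coordinates `m(γ)`, `n(γ)`, `FirstBound` only `m(γ)`, `SecondBound` only `n(γ)`. `SmallQuestion 𝓕 P` is
the same for the `γ ∈ Γ₀(N)` with lower left entry at most `17 * 64 ^ ω(N) * N` (which is
`N ^ (1 + o(1))`), in place of the `γ` with entries at most `N ^ 2`.

`NewformOrTwist`: the newforms, and the twists of newforms by the odd quadratic characters modulo
primes prime to the level (which are newforms too, by Atkin and Lehner). `Twisted`: only these twists.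
`HasTwist`: the newforms which have a twist of the same level `N` by an odd primitive quadratic
character modulo `D`, with `D ^ 2 ∣ N`.
-/

namespace Pool.Agent.Results.MP_bde085_nt.OneCoordinate

open Pool.Agent.TH133.SH Pool.Agent.Q127.SM

/-- **Q1 is equivalent to the bound for the first coordinate alone and to the bound for the second
coordinate alone, for newforms and their twists; it is enough to consider twists; and for the
newforms with an odd twist of the same level the bounds for the two coordinates are equivalent.** -/
theorem result : List.TFAE [EntriesAtMost 2, Question NewformOrTwist CoordBound,
      SmallQuestion NewformOrTwist FirstBound, SmallQuestion NewformOrTwist SecondBound,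
      SmallQuestion Twisted CoordBound] ∧
    List.TFAE [Question HasTwist CoordBound, SmallQuestion HasTwist FirstBound,
      SmallQuestion HasTwist SecondBound] :=
  main

end Pool.Agent.Results.MP_bde085_nt.OneCoordinate
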