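import Pool.Agent.Q236.SH.Main

/-!
# MP_bde085_nt: the polynomial bound for the Shimura map from an average bound

Fix `0 < ε < 1`. There are `A, δ > 0` such that the following statements are equivalent.

1. The coordinates `m(γ)`, `n(γ)` are at most `C N ^ κ` for all newforms of all levels `N` and all
   `γ ∈ Γ₀(N)` with entries at most `N ^ 2` (the question Q1, equivalent to Szpiro's conjecture).
2. For some `κ`, `C` and for every `N` and every newform of level `N` there is ONE `T ≥ A N ^ (1 + ε)`
   such that the coordinates are more than `C N ^ κ` for at most `δ T ^ (2 - ε) / N ^ 2` of the
   reduced fractions `p / r` modulo one with `N ∣ r ≤ T` (there are at most `T ^ 2 / N` such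
   fractions; the value of `H` depends only on the fraction `p / r` modulo one, `(p, r)` the first
   column of `γ`). So it is enough that the exceptions have proportion `δ / (N T ^ ε)`.
3. For some `κ`, `C` the coordinates of every `γ ∈ Γ₀(N)` are at most `C N ^ κ log (2 + |tr γ|)`: this
   is the length of the closed geodesic of `γ` on the modular curve, up to a factor.
4. The same as 3 for the elements of some subgroup of finite index of `Γ₀(N)`, of arbitrary index,
   which may depend on `N` and on the newform.

Proof of 2 → 1. `H` is a homomorphism. If `H(γ₀)` has a coordinate more than `2 C N ^ κ` for some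
`γ₀` with small lower left entry `N m`, then for every `γ` one of `γ`, `γ γ₀` is exceptional. The
number of the fractions of the `γ` for which `γ` and `γ γ₀` have lower left entry in `(T / 3, T]` is
estimated from below by a sieve for rows `(N k, d)`: `d` lies in an interval of length `T / (2 N m)`
and has to be prime to `N k`; these fractions, and those of the `γ γ₀`, are distinct. By the
starting result it is enough to consider `m ≤ 17 * 64 ^ ω(N)`. For 3 and 4 consider the powers of `γ`.
-/

set_option autoImplicit false

namespace Pool.Agent.Results.MP_bde085_nt.RareExceptions

open Pool.Agent.TH133.SH Pool.Agent.Q236.SH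

/-- **The polynomial bound for the Shimura map on small matrices is equivalent to the same bound with
few exceptions, and to a bound by the lengths of the closed geodesics of the modular curve or of any
finite cover of it.** -/
theorem result (ε : ℝ) (hε0 : 0 < ε) (hε1 : ε < 1) : ∃ A δ : ℝ, 0 < A ∧ 0 < δ ∧
    List.TFAE [EntriesAtMost 2, RareExceptions ε A δ, GeodesicGrowth, CoverGrowth] :=
  main ε hε0 hε1

end Pool.Agent.Results.MP_bde085_nt.RareExceptions
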