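import Pool.Agent.Q127.SM.Fam

/-!
# MP_bde085_nt: Q1 holds for the quadratic twists of each fixed newform

`IsTwist a D χ a'`: `a' n = χ(n) a n`, where `χ` is a primitive character modulo `D ≥ 1` with
`χ ^ 2 = 1` (even or odd). The twist is a form of level `N D ^ 2`, if `a` is a form of level `N`; if
`D` is prime to `N` and `a` is a newform, then it is a newform of level `N D ^ 2` (Atkin, Lehner).
-/

namespace Pool.Agent.Results.MP_bde085_nt.TwistFamilies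

open Pool.Agent.TH133.SH Pool.Agent.Q127.SR

/-- **Q1 holds with every exponent above `1/2` for all quadratic twists of a fixed newform; the
coordinates have logarithmic growth, with a constant which is linear in the conductor of the
character and in the bound for the newform.** -/
theorem result :
    (∀ (N : ℕ) (a : ℕ → ℤ) (Ω₁ Ω₂ : ℂ), 1 ≤ N → IsNewform N a → IsBasis N a Ω₁ Ω₂ →
      ∀ κ : ℝ, 1 / 2 < κ → ∃ C : ℝ, 0 < C ∧ ∀ (D : ℕ) (χ : DirichletCharacter ℂ D) (a' : ℕ → ℤ),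
        IsTwist a D χ a' → ∀ Ω₁' Ω₂' : ℂ, IsBasis (N * D ^ 2) a' Ω₁' Ω₂' →
        ∀ p q r s : ℤ, p * s - q * r = 1 → ((N * D ^ 2 : ℕ) : ℤ) ∣ r →
          |p| ≤ ((N * D ^ 2 : ℕ) : ℤ) ^ 2 → |q| ≤ ((N * D ^ 2 : ℕ) : ℤ) ^ 2 →
          |r| ≤ ((N * D ^ 2 : ℕ) : ℤ) ^ 2 → |s| ≤ ((N * D ^ 2 : ℕ) : ℤ) ^ 2 →
          CoordBound a' Ω₁' Ω₂' p q r s (C * ((N * D ^ 2 : ℕ) : ℝ) ^ κ)) ∧
    (∀ (N : ℕ) (a : ℕ → ℤ) (Ω₁ Ω₂ : ℂ) (B : ℝ), 1 ≤ N → IsNewform N a → IsBasis N a Ω₁ Ω₂ →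
      (∀ p q r s : ℤ, p * s - q * r = 1 → (N : ℤ) ∣ r → |p| ≤ (N : ℤ) ^ 2 →
        |q| ≤ (N : ℤ) ^ 2 → |r| ≤ (N : ℤ) ^ 2 → |s| ≤ (N : ℤ) ^ 2 →
        CoordBound a Ω₁ Ω₂ p q r s B) →
      ∀ (D : ℕ) (χ : DirichletCharacter ℂ D) (a' : ℕ → ℤ), IsTwist a D χ a' →
        ∀ Ω₁' Ω₂' : ℂ, IsBasis (N * D ^ 2) a' Ω₁' Ω₂' →
        ∀ p q r s : ℤ, p * s - q * r = 1 → ((N * D ^ 2 : ℕ) : ℤ) ∣ r → r ≠ 0 →
          CoordBound a' Ω₁' Ω₂' p q r s (10 * D * N * B * (1 + Real.log |(r : ℝ)|))) :=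
  ⟨fun _ _ _ _ hN ha hb _ hκ => family hN ha hb hκ,
    fun _ _ _ _ _ hN ha hb hB _ _ _ h _ _ hb' p q r s hd hr h0 =>
      uniform hN ha hb hB h hb' p q r s hd hr h0⟩

end Pool.Agent.Results.MP_bde085_nt.TwistFamilies
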